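import Pool.Agent.K1H53.BI.Plan5
import Pool.Agent.K1H31.BI.Harm

/-!
Piece Q of project BI, part 3 (helper53): the explicit superharmonic function, two-sided.
Uses `Pool.Agent.K1H31.BI.Harm` (helper31).
-/

set_option autoImplicit false

namespace Pool.Agent.K1H89.BI5

open Finset Pool.Agent.K1H53.BI Pool.Agent.K1H31.BI53

/-- polynomial lower bound for `1 / sqrt (1 + u)` -/
noncomputable def tt (u : ℝ) : ℝ := 1 - u / 2 + 3 / 8 * u ^ 2 - 5 / 16 * u ^ 3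

lemma tt_pos {u : ℝ} (h : |u| ≤ 1 / 4) : 0 < tt u := by
  have h1 := (abs_le.mp h).1
  have h2 := (abs_le.mp h).2
  unfold tt
  have h3 : u ^ 3 ≤ u ^ 2 / 4 := by nlinarith [sq_nonneg u]
  nlinarith [sq_nonneg u]

lemma tt_sq {u : ℝ} (h : |u| ≤ 1 / 4) : tt u ^ 2 * (1 + u) ≤ 1 := by
  have h1 := (abs_le.mp h).1
  have h2 := (abs_le.mp h).2
  have e : 1 - tt u ^ 2 * (1 + u) = u ^ 4 * (35 / 64 - 14 / 64 * u + 35 / 256 * u ^ 2 -
      25 / 256 * u ^ 3) := by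
    unfold tt
    ring
  have h3 : u ^ 3 ≤ u ^ 2 / 4 := by nlinarith [sq_nonneg u]
  have h4 : 0 ≤ u ^ 4 * (35 / 64 - 14 / 64 * u + 35 / 256 * u ^ 2 - 25 / 256 * u ^ 3) := by
    apply mul_nonneg (by positivity)
    nlinarith [sq_nonneg u]
  linarith

lemma le_inv_sqrt {a u : ℝ} (ha : 0 < a) (hu : |u| ≤ 1 / 4) :
    tt u * (Real.sqrt a)⁻¹ ≤ (Real.sqrt (a * (1 + u)))⁻¹ := by
  have h1 := (abs_le.mp hu).1
  have hu1 : 0 < 1 + u := by linarith
  have hb : 0 < a * (1 + u) := mul_pos ha hu1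
  have hsa : 0 < Real.sqrt a := Real.sqrt_pos.mpr ha
  have hsb : 0 < Real.sqrt (a * (1 + u)) := Real.sqrt_pos.mpr hb
  have hp := tt_pos hu
  have hsq := tt_sq hu
  have h2 : tt u * Real.sqrt (a * (1 + u)) ≤ Real.sqrt a := by
    apply Real.le_sqrt_of_sq_le
    rw [mul_pow, Real.sq_sqrt hb.le]
    nlinarith
  rw [← div_eq_mul_inv, div_le_iff₀ hsa, ← div_eq_inv_mul, le_div_iff₀ hsb]
  exact h2

lemma le_pair {a t : ℝ} (ha : 0 < a) (hu : |2 * t / a| ≤ 1 / 4) :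
    (2 + 3 / 4 * (2 * t / a) ^ 2) * (Real.sqrt a)⁻¹ ≤
      (Real.sqrt (a + 2 * t))⁻¹ + (Real.sqrt (a - 2 * t))⁻¹ := by
  have e1 : a + 2 * t = a * (1 + 2 * t / a) := by field_simp
  have e2 : a - 2 * t = a * (1 + -(2 * t / a)) := by field_simp; ring
  have h1 := le_inv_sqrt ha hu
  have h2 := le_inv_sqrt (u := -(2 * t / a)) ha (by rwa [abs_neg])
  rw [← e1] at h1
  rw [← e2] at h2
  have e3 : (2 + 3 / 4 * (2 * t / a) ^ 2) * (Real.sqrt a)⁻¹ =
      tt (2 * t / a) * (Real.sqrt a)⁻¹ + tt (-(2 * t / a)) * (Real.sqrt a)⁻¹ := by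
    unfold tt
    ring
  rw [e3]
  exact add_le_add h1 h2

lemma key2 (x y z N : ℝ) (hN : N = x ^ 2 + y ^ 2 + z ^ 2) :
    6 * (Real.sqrt (N + 20))⁻¹ - 6 * (12 / ((N + 1) ^ 2 * Real.sqrt (N + 1))) ≤
    ((Real.sqrt (N + 21 + 2 * x))⁻¹ + (Real.sqrt (N + 21 - 2 * x))⁻¹) +
    ((Real.sqrt (N + 21 + 2 * y))⁻¹ + (Real.sqrt (N + 21 - 2 * y))⁻¹) +
    ((Real.sqrt (N + 21 + 2 * z))⁻¹ + (Real.sqrt (N + 21 - 2 * z))⁻¹) := by
  have hN0 : 0 ≤ N := by rw [hN]; positivity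
  set a : ℝ := N + 21 with ha
  have ha21 : 21 ≤ a := by linarith
  have ha0 : 0 < a := by linarith
  have h1 := le_pair (t := x) ha0 (u_small (by rw [hN]; nlinarith [sq_nonneg y, sq_nonneg z]))
  have h2 := le_pair (t := y) ha0 (u_small (by rw [hN]; nlinarith [sq_nonneg x, sq_nonneg z]))
  have h3 := le_pair (t := z) ha0 (u_small (by rw [hN]; nlinarith [sq_nonneg x, sq_nonneg y]))
  have hsa : 0 < Real.sqrt a := Real.sqrt_pos.mpr ha0
  have h4 : (Real.sqrt (N + 20))⁻¹ ≤ pp (-(1 / a)) * (Real.sqrt a)⁻¹ := by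
    have e : N + 20 = a * (1 + -(1 / a)) := by
      rw [ha]
      field_simp
      ring
    rw [e]
    refine inv_sqrt_le ha0 ?_
    rw [abs_neg, abs_of_pos (by positivity), div_le_div_iff₀ ha0 (by norm_num)]
    linarith
  have h5 : 6 * pp (-(1 / a)) ≤ (2 + 3 / 4 * (2 * x / a) ^ 2) + (2 + 3 / 4 * (2 * y / a) ^ 2) +
      (2 + 3 / 4 * (2 * z / a) ^ 2) + 6 * (12 / a ^ 2) := by
    have e1 : (2 + 3 / 4 * (2 * x / a) ^ 2) + (2 + 3 / 4 * (2 * y / a) ^ 2) +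
      (2 + 3 / 4 * (2 * z / a) ^ 2) + 6 * (12 / a ^ 2) = 6 + 3 * (a - 21) / a ^ 2 + 72 / a ^ 2 := by
      have : a - 21 = x ^ 2 + y ^ 2 + z ^ 2 := by rw [← hN, ha]; ring
      rw [this]
      field_simp
      ring
    have e2 : 6 * pp (-(1 / a)) = 6 + 3 * a / a ^ 2 + (9 / 4 + 15 / 8 * (1 / a) +
        6 * (1 / a) ^ 2) / a ^ 2 := by
      unfold pp
      field_simp
      ring
    have e3 : 1 / a ≤ 1 / 2 := one_div_le_one_div_of_le (by norm_num) (by linarith)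
    have e4 : (1 / a) ^ 2 ≤ (1 / 2) ^ 2 := pow_le_pow_left₀ (by positivity) e3 2
    have e5 : ∀ p q r : ℝ, p + q / a ^ 2 + r / a ^ 2 = p + (q + r) / a ^ 2 := by
      intros; ring
    rw [e1, e2, e5, e5]
    apply add_le_add le_rfl
    apply div_le_div_of_nonneg_right _ (by positivity)
    linarith
  have h6 := mul_le_mul_of_nonneg_right h5 (inv_pos.mpr hsa).le
  have h7 : 12 / a ^ 2 * (Real.sqrt a)⁻¹ ≤ 12 / ((N + 1) ^ 2 * Real.sqrt (N + 1)) := by
    rw [← div_eq_mul_inv, div_div]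
    have hs1 : 0 < Real.sqrt (N + 1) := Real.sqrt_pos.mpr (by linarith)
    apply div_le_div_of_nonneg_left (by norm_num) (by positivity)
    exact mul_le_mul (pow_le_pow_left₀ (by linarith) (by linarith) 2)
      (Real.sqrt_le_sqrt (by linarith)) hs1.le (by positivity)
  nlinarith

lemma sum_gg (c : ℝ) (x : V) : ∑ e : Fin 3 × Bool, gg c (x + dir e) = c * (
    ((Real.sqrt (rn x + 21 + 2 * x 0))⁻¹ + (Real.sqrt (rn x + 21 - 2 * x 0))⁻¹) +
    ((Real.sqrt (rn x + 21 + 2 * x 1))⁻¹ + (Real.sqrt (rn x + 21 - 2 * x 1))⁻¹) +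
    ((Real.sqrt (rn x + 21 + 2 * x 2))⁻¹ + (Real.sqrt (rn x + 21 - 2 * x 2))⁻¹)) := by
  have hp : ∀ i : Fin 3, rn (x + dir (i, true)) + 20 = rn x + 21 + 2 * x i := by
    intro i
    unfold rn dir
    fin_cases i <;> simp [Fin.sum_univ_three, Pi.single_apply] <;> ring
  have hm : ∀ i : Fin 3, rn (x + dir (i, false)) + 20 = rn x + 21 - 2 * x i := by
    intro i
    unfold rn dir
    fin_cases i <;> simp [Fin.sum_univ_three, Pi.single_apply] <;> ring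
  rw [Fintype.sum_prod_type]
  simp only [Fintype.sum_bool, Fin.sum_univ_three, gg, hp, hm]
  ring

lemma qf_eq (x : V) : qf x = gg 1 x := by
  unfold qf gg
  rw [nsq_cast, one_mul, one_div]

lemma lam_eq (x : V) : 6 * lam x = 6 * gg 1 x - ∑ e : Fin 3 × Bool, gg 1 (x + dir e) := by
  unfold lam av
  rw [qf_eq, Finset.sum_congr rfl fun e _ => qf_eq (x + dir e)]
  ring

theorem t_Q : S_Q := by
  refine ⟨12, by norm_num, fun x => ?_, ?_, fun x => ?_⟩
  · have h1 := lam_eq x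
    have h2 := gg_super zero_le_one x
    linarith
  · have h1 := lam_eq 0
    rw [sum_gg] at h1
    have h0 : rn (0 : V) = 0 := by simp [rn]
    unfold gg at h1
    rw [h0] at h1
    simp only [Pi.zero_apply, Int.cast_zero, mul_zero, add_zero, sub_zero, zero_add, one_mul] at h1
    have h2 : (Real.sqrt 21)⁻¹ < (Real.sqrt 20)⁻¹ := by
      apply inv_strictAnti₀ (Real.sqrt_pos.mpr (by norm_num))
      exact Real.sqrt_lt_sqrt (by norm_num) (by norm_num)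
    linarith
  · have h1 := lam_eq x
    have h2 := key2 (x 0) (x 1) (x 2) (rn x) (by
      unfold rn
      rw [Fin.sum_univ_three])
    rw [sum_gg, one_mul] at h1
    have h3 : gg 1 x = (Real.sqrt (rn x + 20))⁻¹ := by
      unfold gg
      rw [one_mul]
    rw [h3] at h1
    rw [nsq_cast]
    linarith

end Pool.Agent.K1H89.BI5
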